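import Pool.Agent.W973.CES.Defs

/-! # Project CES, part MR: the ranks of the men decrease -/

set_option autoImplicit false

namespace Pool.Agent.W701.CES

open Pool.Agent.W973.CES Pool.Agent.NPC

theorem idx_cons (p w : ℕ) (l : List ℕ) :
    (p :: l).idxOf w = if w = p then 0 else l.idxOf w + 1 := by
  rw [List.idxOf_cons]
  by_cases h : w = p
  · subst h
    simp
  · have h' : (p == w) = false := by
      rw [beq_eq_false_iff_ne]
      exact fun e => h e.symm
    rw [h', if_neg h]
    rfl

theorem idx_nil (w : ℕ) : ([] : List ℕ).idxOf w = 0 := by simp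

theorem lt2 (p q w z : ℕ) (hpq : p ≠ q) (hz : z = p ∨ z = q) (h : Lt [p, q] w z) :
    w = p ∧ z = q := by
  unfold Lt at h
  simp only [idx_cons, idx_nil] at h
  split_ifs at h
  all_goals first
    | omega
    | (rcases h with h | h
       · omega
       · exact h.1.elim)

theorem lt3 (p q r w z : ℕ) (hpq : p ≠ q) (hpr : p ≠ r) (hqr : q ≠ r) (hz : z = p ∨ z = r)
    (h : Lt [p, q, r] w z) : z = r ∧ (w = p ∨ w = q) := by
  unfold Lt at h
  simp only [idx_cons, idx_nil] at h
  split_ifs at h
  all_goals first
    | omega
    | (rcases h with h | h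
       · omega
       · exact h.1.elim)

theorem mr (h : S_TOP) : S_MR := by
  intro φ st hst x hx w hw hlt
  obtain ⟨hn, hi, -⟩ := h φ
  have hflc : fl st x = 2 * (x / 2) ∨ fl st x = 2 * (x / 2) + 1 := by
    unfold fl
    split_ifs <;> omega
  by_cases hc : x % 2 = 0 ∧ x / 2 < n3 φ
  · have ht : topM φ x = [2 * (x / 2), 2 * nx (x / 2) + 1, 2 * (x / 2) + 1] := by
      unfold topM
      rw [if_pos hc]
    obtain ⟨-, -, hnx, hne⟩ := hi (x / 2) hc.2
    rw [ht] at hlt
    have h3 := lt3 _ _ _ w (fl st x) (by omega) (by omega) (by omega) hflc hlt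
    have hsg : st (x / 2) = false := by
      by_contra hs
      have hs' : st (x / 2) = true := by simpa using hs
      have : fl st x = x := by
        unfold fl
        rw [if_pos hs']
      omega
    rw [h3.1]
    have hr : rM φ st (2 * (x / 2) + 1) = if st (nx (x / 2)) then 2 else 3 := by
      unfold rM
      have e1 : ¬ ((2 * (x / 2) + 1) % 2 = 0) := by omega
      have e2 : (2 * (x / 2) + 1) / 2 = x / 2 := by omega
      rw [if_neg e1, e2, if_neg (by omega), hsg]
      simp
    rw [hr]
    rcases h3.2 with hw0 | hw0
    · have : rM φ st w = 0 := by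
        unfold rM
        rw [if_pos (by omega)]
      rw [this]
      split_ifs <;> omega
    · have hr2 : rM φ st w = if st (nx (x / 2)) then 1 else
          if st (nx (nx (x / 2))) then 2 else 3 := by
        unfold rM
        have e1 : ¬ (w % 2 = 0) := by omega
        have e2 : w / 2 = nx (x / 2) := by omega
        rw [if_neg e1, e2, if_neg (by omega)]
      rw [hr2]
      by_cases h4 : st (nx (x / 2)) = true
      · rw [if_pos h4, if_pos h4]
        omega
      · rw [if_neg h4, if_neg h4]
        have h5 : st (nx (nx (x / 2))) = true := by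
          obtain ⟨k, hk, hk'⟩ := hst (x / 2 / 3) (by omega)
          have e1 : k = x / 2 % 3 ∨ k = (x / 2 % 3 + 1) % 3 ∨ k = (x / 2 % 3 + 2) % 3 := by
            omega
          rcases e1 with e1 | e1 | e1
          · have : 3 * (x / 2 / 3) + k = x / 2 := by omega
            rw [this, hsg] at hk'
            exact absurd hk' (by simp)
          · have : 3 * (x / 2 / 3) + k = nx (x / 2) := by
              unfold nx
              omega
            rw [this] at hk'
            exact absurd hk' h4
          · have : 3 * (x / 2 / 3) + k = nx (nx (x / 2)) := by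
              unfold nx
              omega
            rw [this] at hk'
            exact hk'
        rw [if_pos h5]
        omega
  · have ht : topM φ x = [2 * (x / 2), 2 * (x / 2) + 1] := by
      unfold topM
      rw [if_neg hc]
    rw [ht] at hlt
    have h3 := lt2 _ _ w (fl st x) (by omega) hflc hlt
    rw [h3.2]
    have : rM φ st w = 0 := by
      unfold rM
      rw [if_pos (by omega)]
    rw [this]
    unfold rM
    have e1 : ¬ ((2 * (x / 2) + 1) % 2 = 0) := by omega
    rw [if_neg e1]
    split_ifs <;> omega

end Pool.Agent.W701.CES
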